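import Pool.Agent.N171.TG.Stm
import Pool.Agent.R932.OP.TypCU

set_option autoImplicit false

/-! Project TG (helper171), task CU2 (helper999): an unramified full cycle over the 2-adic
numbers. -/

open Polynomial
open Pool.Agent.R932.OP.CU
open Pool.Agent.Y331.ZD (root_aut)
open Pool.Agent.Y255.SS (BB mI int_of_le le_of_int mem_mI)

namespace Pool.Agent.N999.TG

/-- the size of a periodic orbit -/
theorem card_orbit {Z : Type} (f : Z → Z) {x : Z} (hx : 0 < Function.minimalPeriod f x)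
    (S : Finset Z) (hS : ∀ y, y ∈ S ↔ ∃ i : ℕ, f^[i] x = y) :
    S.card = Function.minimalPeriod f x := by
  classical
  have h1 : S = (Finset.range (Function.minimalPeriod f x)).image fun i => f^[i] x := by
    ext y
    rw [hS, Finset.mem_image]
    constructor
    · rintro ⟨i, rfl⟩
      exact ⟨i % Function.minimalPeriod f x, Finset.mem_range.2 (Nat.mod_lt _ hx),
        Function.iterate_mod_minimalPeriod_eq⟩
    · rintro ⟨i, _, hi⟩
      exact ⟨i, hi⟩
  rw [h1, Finset.card_image_of_injOn, Finset.card_range]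
  intro i hi j hj hij
  exact Function.iterate_injOn_Iio_minimalPeriod (by simpa using hi) (by simpa using hj) hij

theorem exists_irr (d : ℕ) (hd : 0 < d) :
    ∃ g : (ZMod 2)[X], g.Monic ∧ g.natDegree = d ∧ Irreducible g := by
  obtain ⟨x, hx⟩ := Field.exists_primitive_element (ZMod 2) (GaloisField 2 d)
  have hint : IsIntegral (ZMod 2) x := Algebra.IsIntegral.isIntegral x
  refine ⟨minpoly (ZMod 2) x, minpoly.monic hint, ?_, minpoly.irreducible hint⟩
  rw [← IntermediateField.adjoin.finrank hint, hx, IntermediateField.finrank_top',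
    GaloisField.finrank 2 hd.ne']

section core

variable {M : Type} [Field M] [CharP M 2] {π : BB 2 →+* M} {P : ℤ[X]}

theorem ev {x : BB 2}
    (hx : aeval (x : AlgebraicClosure ℚ_[2]) (P.map (Int.castRingHom ℚ_[2])) = 0) :
    P.eval₂ (Int.castRingHom (BB 2)) x = 0 := by
  apply Subtype.ext
  rw [← aeval_BB]
  exact hx

variable (hπ : ∀ x : BB 2, π x = 0 ↔ ‖(x : AlgebraicClosure ℚ_[2])‖ < 1) (hPm : P.Monic)
  (τ : AlgebraicClosure ℚ_[2] ≃ₐ[ℚ_[2]] AlgebraicClosure ℚ_[2])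
  (hτ : ∀ x : AlgebraicClosure ℚ_[2], ‖x‖ ≤ 1 → ‖τ x - x ^ 2‖ < 1)

include hπ hPm hτ

/-- the action of the Frobenius lift on the roots -/
theorem act (r : BB 2)
    (hr : aeval (r : AlgebraicClosure ℚ_[2]) (P.map (Int.castRingHom ℚ_[2])) = 0) (i : ℕ) :
    ∃ y : BB 2, (y : AlgebraicClosure ℚ_[2]) = (τ ^ i) r ∧
      aeval (y : AlgebraicClosure ℚ_[2]) (P.map (Int.castRingHom ℚ_[2])) = 0 ∧
      π y = (π r) ^ (2 ^ i) := by
  induction i with
  | zero =>
    refine ⟨r, ?_, hr, ?_⟩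
    · simp
    · simp
  | succ i ih =>
    obtain ⟨y, hy1, hy2, hy3⟩ := ih
    have hroot : aeval (τ (y : AlgebraicClosure ℚ_[2])) (P.map (Int.castRingHom ℚ_[2])) = 0 :=
      root_aut τ hy2
    set z : BB 2 := ⟨τ y, root_int hPm hroot⟩ with hz
    refine ⟨z, ?_, hroot, ?_⟩
    · show τ (y : AlgebraicClosure ℚ_[2]) = (τ ^ (i + 1)) r
      rw [pow_succ', AlgEquiv.mul_apply, hy1]
    · have h1 : π (z - y ^ 2) = 0 := by
        rw [hπ]
        exact hτ (y : AlgebraicClosure ℚ_[2]) (le_of_int 2 y.2)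
      rw [map_sub, map_pow, sub_eq_zero] at h1
      rw [h1, hy3, ← pow_mul, ← pow_succ]

/-- the roots are conjugate under the Frobenius lift -/
theorem conj (hgi : Irreducible (P.map (Int.castRingHom (ZMod 2))))
    (hsep : (P.map (Int.castRingHom (ZMod 2))).Separable) {r s : AlgebraicClosure ℚ_[2]}
    (hr : aeval r (P.map (Int.castRingHom ℚ_[2])) = 0)
    (hs : aeval s (P.map (Int.castRingHom ℚ_[2])) = 0) : ∃ i : ℕ, (τ ^ i) r = s := by
  obtain ⟨r', hr'⟩ : ∃ r' : BB 2, (r' : AlgebraicClosure ℚ_[2]) = r := ⟨⟨r, root_int hPm hr⟩, rfl⟩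
  obtain ⟨s', hs'⟩ : ∃ s' : BB 2, (s' : AlgebraicClosure ℚ_[2]) = s := ⟨⟨s, root_int hPm hs⟩, rfl⟩
  subst hr' hs'
  have ha := red_eval π P r'
  have hb := red_eval π P s'
  rw [ev hr, map_zero] at ha
  rw [ev hs, map_zero] at hb
  obtain ⟨i, hi⟩ := conj_pow 2 _ hgi _ _ ha.symm hb.symm
  obtain ⟨y, hy1, hy2, hy3⟩ := act hπ hPm τ hτ r' hr i
  refine ⟨i, ?_⟩
  have h1 : y = s' := root_unique (π := π) hsep y s' (ev hy2) (ev hs) (by rw [hy3, hi])
  rw [← hy1, h1]

/-- automorphisms commute with the Frobenius lift on the roots -/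
theorem comm (hsep : (P.map (Int.castRingHom (ZMod 2))).Separable) {z : AlgebraicClosure ℚ_[2]}
    (hz : aeval z (P.map (Int.castRingHom ℚ_[2])) = 0)
    (σ : AlgebraicClosure ℚ_[2] ≃ₐ[ℚ_[2]] AlgebraicClosure ℚ_[2]) {i : ℕ}
    (hi : (τ ^ i) z = σ z) (n : ℕ) : σ ((τ ^ n) z) = (τ ^ i) ((τ ^ n) z) := by
  obtain ⟨z', hz'⟩ : ∃ z' : BB 2, (z' : AlgebraicClosure ℚ_[2]) = z := ⟨⟨z, root_int hPm hz⟩, rfl⟩
  subst hz'
  obtain ⟨y1, h11, h12, h13⟩ := act hπ hPm τ hτ z' hz n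
  obtain ⟨y2, h21, h22, h23⟩ := act hπ hPm τ hτ z' hz i
  obtain ⟨y3, h31, h32, h33⟩ := act hπ hPm τ hτ y1 h12 i
  have h42 : aeval (σ (y1 : AlgebraicClosure ℚ_[2])) (P.map (Int.castRingHom ℚ_[2])) = 0 :=
    root_aut σ h12
  obtain ⟨y4, h41⟩ : ∃ y4 : BB 2, (y4 : AlgebraicClosure ℚ_[2]) = σ y1 :=
    ⟨⟨σ y1, root_int hPm h42⟩, rfl⟩
  rw [← h41] at h42
  have h1 : ‖(y1 : AlgebraicClosure ℚ_[2]) - (z' : AlgebraicClosure ℚ_[2]) ^ (2 ^ n)‖ < 1 := by
    have h2 : π (y1 - z' ^ (2 ^ n)) = 0 := by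
      rw [map_sub, map_pow, h13, sub_self]
    exact (hπ _).1 h2
  have h3 : π (y4 - y2 ^ (2 ^ n)) = 0 := by
    rw [hπ]
    have h4 : ((y4 - y2 ^ (2 ^ n) : BB 2) : AlgebraicClosure ℚ_[2]) =
        σ ((y1 : AlgebraicClosure ℚ_[2]) - (z' : AlgebraicClosure ℚ_[2]) ^ (2 ^ n)) := by
      rw [map_sub, map_pow, ← hi, ← h21, ← h41]
      rfl
    rw [h4, Pool.Agent.Y331.ZD.norm_inv']
    exact h1
  rw [map_sub, map_pow, sub_eq_zero] at h3
  have h5 : y4 = y3 := root_unique (π := π) hsep y4 y3 (ev h42) (ev h32) (by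
    rw [h3, h33, h13, h23, ← pow_mul, ← pow_mul, mul_comm])
  rw [← h11, ← h41, h5, h31]

end core

theorem cu2 : Pool.Agent.N171.TG.S_CU2 := by
  classical
  intro n hn
  obtain ⟨g, hgm, hgd, hgi⟩ := exists_irr (2 * n) (by omega)
  have hlift : g ∈ Polynomial.lifts (Int.castRingHom (ZMod 2)) := by
    rw [Polynomial.lifts_iff_coeff_lifts]
    intro k
    obtain ⟨a, ha⟩ := ZMod.intCast_surjective (g.coeff k)
    exact ⟨a, ha⟩
  obtain ⟨P, hG1, hG2, hPm⟩ := Polynomial.lifts_and_natDegree_eq_and_monic hlift hgm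
  have hgs : g.Separable := PerfectField.separable_of_irreducible hgi
  rw [← hG1] at hgi hgs
  obtain ⟨M, _, _, π, hπ⟩ := exists_res 2
  obtain ⟨τ, hτ⟩ := Pool.Agent.Y255.SS.lf 2
  have hsepQ := sep_lift hPm π hgs
  obtain ⟨PQ, hPQ⟩ : ∃ PQ, PQ = P.map (Int.castRingHom ℚ_[2]) := ⟨_, rfl⟩
  have hPQm : PQ.Monic := by rw [hPQ]; exact hPm.map _
  have hPQd : PQ.natDegree = 2 * n := by rw [hPQ, hPm.natDegree_map, hG2, hgd]
  have hPQs : PQ.Separable := by rw [hPQ]; exact hsepQ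
  have hconj : ∀ r s : AlgebraicClosure ℚ_[2], aeval r PQ = 0 → aeval s PQ = 0 →
      ∃ i : ℕ, (τ ^ i) r = s := by
    intro r s hr hs
    rw [hPQ] at hr hs
    exact conj hπ hPm τ hτ hgi hgs hr hs
  have hroot : ∀ {R : ℚ_[2][X]} {r : AlgebraicClosure ℚ_[2]} (i : ℕ), aeval r R = 0 →
      aeval ((τ ^ i) r) R = 0 := fun i hr => root_aut (τ ^ i) hr
  -- the orbits
  have horb : ∀ (R : ℚ_[2][X]), R.Monic → R.Separable → ∀ r : AlgebraicClosure ℚ_[2],
      aeval r R = 0 → 0 < Function.minimalPeriod (τ : _ → AlgebraicClosure ℚ_[2]) r →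
      (∀ s : AlgebraicClosure ℚ_[2], aeval s R = 0 → ∃ i : ℕ, (τ ^ i) r = s) →
      R.natDegree = Function.minimalPeriod (τ : _ → AlgebraicClosure ℚ_[2]) r := by
    intro R hR hRs r hr hper hs
    rw [← Polynomial.card_rootSet_eq_natDegree hRs (K := AlgebraicClosure ℚ_[2])
      (IsAlgClosed.splits _), ← Set.toFinset_card]
    refine card_orbit _ hper _ fun y => ?_
    rw [Set.mem_toFinset, Polynomial.mem_rootSet_of_ne hR.ne_zero]
    constructor
    · intro hy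
      obtain ⟨i, hi⟩ := hs y hy
      refine ⟨i, ?_⟩
      rw [← AlgEquiv.coe_pow]
      exact hi
    · rintro ⟨i, rfl⟩
      rw [← AlgEquiv.coe_pow]
      exact hroot i hr
  obtain ⟨z, hz⟩ : ∃ z : AlgebraicClosure ℚ_[2], aeval z PQ = 0 := by
    apply IsAlgClosed.exists_aeval_eq_zero
    intro h
    have := Polynomial.natDegree_eq_zero_iff_degree_le_zero.2 h.le
    omega
  have hz0 : 0 < Function.minimalPeriod (τ : _ → AlgebraicClosure ℚ_[2]) z := by
    obtain ⟨i, hi⟩ := hconj (τ z) z (root_aut τ hz) hz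
    apply Function.IsPeriodicPt.minimalPeriod_pos (n := i + 1) (Nat.succ_pos i)
    show τ^[i + 1] z = z
    rw [Function.iterate_succ_apply, ← AlgEquiv.coe_pow]
    exact hi
  have hzn := horb PQ hPQm hPQs z hz hz0 (fun s hs => hconj z s hz hs)
  rw [hPQd] at hzn
  have hper : ∀ j : ℕ, (τ ^ j) z = z ↔ 2 * n ∣ j := by
    intro j
    rw [hzn, ← Function.isPeriodicPt_iff_minimalPeriod_dvd, AlgEquiv.coe_pow]
    rfl
  -- the element
  obtain ⟨z', hz'⟩ : ∃ z', z' = (τ ^ n) z := ⟨_, rfl⟩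
  obtain ⟨a, ha⟩ : ∃ a, a = z - z' := ⟨_, rfl⟩
  obtain ⟨c, hc⟩ : ∃ c, c = z + z' := ⟨_, rfl⟩
  have hz'' : (τ ^ n) z' = z := by
    rw [hz', ← AlgEquiv.mul_apply, ← pow_add]
    exact (hper (n + n)).2 ⟨1, by ring⟩
  have ha0 : a ≠ 0 := by
    rw [ha]
    intro h
    have h1 := (hper n).1 (by rw [← hz']; exact (sub_eq_zero.1 h).symm)
    have := Nat.le_of_dvd hn h1
    omega
  have hex : ∃ t : ℕ, ∀ j, 0 < j → j < 2 * n → (τ ^ j) (a * (c + t)) ≠ a * (c + t) := by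
    by_contra hcon
    push Not at hcon
    choose f hf1 hf2 hf3 using hcon
    obtain ⟨t, t', htt, hff⟩ := Finite.exists_ne_map_eq_of_infinite
      (fun t => (⟨f t, hf2 t⟩ : Fin (2 * n)))
    have hff' : f t = f t' := congrArg Fin.val hff
    have h1 := hf3 t
    have h2 := hf3 t'
    rw [← hff'] at h2
    rw [map_mul, map_add, map_natCast] at h1 h2
    have h3 : ((t : AlgebraicClosure ℚ_[2]) - t') * ((τ ^ f t) a - a) = 0 := by
      linear_combination h1 - h2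
    have h4 : (t : AlgebraicClosure ℚ_[2]) - t' ≠ 0 :=
      sub_ne_zero.2 (Nat.cast_injective.ne htt)
    have h5 : (τ ^ f t) a = a := sub_eq_zero.1 ((mul_eq_zero.1 h3).resolve_left h4)
    rw [h5] at h1
    have h6 : (τ ^ f t) c = c := add_right_cancel (mul_left_cancel₀ ha0 h1)
    have h7 : (τ ^ f t) z = z := by
      have h8 : (τ ^ f t) ((2 : AlgebraicClosure ℚ_[2]) * z) = 2 * z := by
        have e : (2 : AlgebraicClosure ℚ_[2]) * z = a + c := by rw [ha, hc]; ring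
        rw [e, map_add, h5, h6]
      rw [map_mul, map_ofNat] at h8
      exact mul_left_cancel₀ two_ne_zero h8
    have h9 := Nat.le_of_dvd (hf1 t) ((hper _).1 h7)
    have := hf2 t
    omega
  obtain ⟨t, ht⟩ := hex
  obtain ⟨x, hx⟩ : ∃ x, x = a * (c + t) := ⟨_, rfl⟩
  rw [← hx] at ht
  have hx' : x = (z - z') * (z + z' + t) := by rw [hx, ha, hc]
  have hxn : (τ ^ n) x = -x := by
    rw [hx', map_mul, map_sub, map_add, map_add, map_natCast, hz'', ← hz']
    ring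
  have hx2n : (τ ^ (2 * n)) x = x := by
    rw [two_mul, pow_add, AlgEquiv.mul_apply, hxn, map_neg, hxn, neg_neg]
  have hxper : Function.minimalPeriod (τ : _ → AlgebraicClosure ℚ_[2]) x = 2 * n := by
    have h1 : Function.IsPeriodicPt (τ : _ → AlgebraicClosure ℚ_[2]) (2 * n) x := by
      show τ^[2 * n] x = x
      rw [← AlgEquiv.coe_pow]
      exact hx2n
    have h2 := h1.minimalPeriod_le (by omega)
    have h3 := h1.minimalPeriod_pos (by omega)
    by_contra hne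
    apply ht _ h3 (lt_of_le_of_ne h2 hne)
    rw [AlgEquiv.coe_pow]
    exact Function.isPeriodicPt_minimalPeriod _ _
  have hσ : ∀ σ : AlgebraicClosure ℚ_[2] ≃ₐ[ℚ_[2]] AlgebraicClosure ℚ_[2],
      ∃ i : ℕ, (τ ^ i) x = σ x := by
    intro σ
    obtain ⟨i, hi⟩ := hconj z (σ z) hz (root_aut σ hz)
    have h1 : σ z' = (τ ^ i) z' := by
      rw [hz']
      rw [hPQ] at hz
      exact comm hπ hPm τ hτ hgs hz σ hi n
    refine ⟨i, ?_⟩
    rw [hx', map_mul, map_sub, map_add, map_add, map_natCast, map_mul, map_sub, map_add, map_add,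
      map_natCast, hi, h1]
  have hint : ∀ r : AlgebraicClosure ℚ_[2], aeval r PQ = 0 → IsIntegral ℤ_[2] r := by
    intro r hr
    rw [hPQ] at hr
    exact root_int hPm hr
  have hxint : IsIntegral ℚ_[2] x := Algebra.IsIntegral.isIntegral x
  have hroots : ∀ r : AlgebraicClosure ℚ_[2], aeval r (minpoly ℚ_[2] x) = 0 →
      ∃ i : ℕ, (τ ^ i) x = r := by
    intro r hr
    have h1 : IsConjRoot ℚ_[2] x r := isConjRoot_of_aeval_eq_zero hxint hr
    obtain ⟨σ, hs⟩ := isConjRoot_iff_exists_algEquiv.1 h1.symm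
    obtain ⟨i, hi⟩ := hσ σ
    exact ⟨i, hi.trans hs⟩
  have hR0m : (minpoly ℚ_[2] x).Monic := minpoly.monic hxint
  have hR0s : (minpoly ℚ_[2] x).Separable := (minpoly.irreducible hxint).separable
  have hR0d : (minpoly ℚ_[2] x).natDegree = 2 * n := by
    rw [horb _ hR0m hR0s x (minpoly.aeval _ _) (by rw [hxper]; omega) hroots, hxper]
  refine ⟨minpoly ℚ_[2] x, hR0m, hR0d, ?_, hR0s, ?_, τ, ?_⟩
  · have h1 := minpoly.neg (A := ℚ_[2]) x
    rw [← hxn, minpoly.algEquiv_eq, hR0d, pow_mul, neg_one_sq, one_pow, one_mul] at h1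
    exact h1.symm
  · intro r hr
    obtain ⟨i, rfl⟩ := hroots r hr
    have h1 : aeval ((τ ^ i) z) PQ = 0 := hroot i hz
    have h2 : aeval ((τ ^ i) z') PQ = 0 := by
      rw [hz']
      exact hroot i (hroot n hz)
    rw [hx', map_mul, map_sub, map_add, map_add, map_natCast]
    apply le_of_int 2
    exact ((hint _ h1).sub (hint _ h2)).mul
      (((hint _ h1).add (hint _ h2)).add (isIntegral_natCast t))
  · intro r s hr hs
    obtain ⟨i, rfl⟩ := hroots r hr
    obtain ⟨k, rfl⟩ := hroots s hs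
    refine ⟨k + (2 * n * i - i), ?_⟩
    have h1 : i ≤ 2 * n * i := Nat.le_mul_of_pos_left i (by omega)
    have h2 : ∀ j : ℕ, (τ ^ (2 * n * j)) x = x := by
      intro j
      induction j with
      | zero => simp
      | succ j ih => rw [mul_add, mul_one, pow_add, AlgEquiv.mul_apply, hx2n, ih]
    rw [← AlgEquiv.mul_apply, ← pow_add, show k + (2 * n * i - i) + i = k + 2 * n * i by omega,
      pow_add, AlgEquiv.mul_apply, h2]

end Pool.Agent.N999.TG
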